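import Pool.Agent.Helper58.DH.Goals

set_option autoImplicit false

namespace Pool.Agent.Helper64.DH

open Pool.Agent.Helper58.DH

/-- Pigeonhole: one of the `n` windows above the minimum contains no value. -/
theorem q_low_gap {n : ℕ} (x : Fin n → ℝ) (m : Fin n) (hm : ∀ e, x m ≤ x e) (hx : 0 < x m)
    (L : ℝ) (hL : 1 ≤ L) :
    ∃ l : ℕ, l < n ∧ ∀ e, x e ≤ L ^ l * x m ∨ L ^ (l + 1) * x m < x e := by
  by_contra hcon
  push Not at hcon
  choose f hf using fun l : Fin n => hcon l.1 l.2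
  have hinj : Function.Injective f := by
    have key : ∀ a b : Fin n, a.1 < b.1 → f a ≠ f b := by
      intro a b hab hfe
      have h1 := (hf a).2
      have h2 := (hf b).1
      rw [hfe] at h1
      have h3 : L ^ (a.1 + 1) ≤ L ^ b.1 := pow_le_pow_right₀ hL hab
      have h4 : L ^ (a.1 + 1) * x m ≤ L ^ b.1 * x m := mul_le_mul_of_nonneg_right h3 hx.le
      linarith
    intro a b hfe
    rcases lt_trichotomy a.1 b.1 with h | h | h
    · exact absurd hfe (key a b h)
    · exact Fin.ext h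
    · exact absurd hfe.symm (key b a h)
  have hsur := Finite.surjective_of_injective hinj
  obtain ⟨l, hl⟩ := hsur m
  have h1 := (hf l).1
  rw [hl] at h1
  have h2 : (1 : ℝ) ≤ L ^ l.1 := one_le_pow₀ hL
  nlinarith

/-- The sum of the indicators over the ordered triples. -/
theorem q_low_sum {n : ℕ} (A : Fin n → Fin n → Fin n → ℝ) (hA : Sym3 A) (s : Fin n → ℝ) :
    ∑ i, ∑ j, ∑ k, A i j k * (s i + s j + s k) = 3 * ∑ i, s i * ∑ j, ∑ k, A i j k := by
  obtain ⟨_, h1, h2⟩ := hA
  have e1 : ∑ i, ∑ j, ∑ k, A i j k * s i = ∑ i, s i * ∑ j, ∑ k, A i j k := by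
    refine Finset.sum_congr rfl fun i _ => ?_
    rw [Finset.mul_sum]
    refine Finset.sum_congr rfl fun j _ => ?_
    rw [Finset.mul_sum]
    refine Finset.sum_congr rfl fun k _ => ?_
    ring
  have e2 : ∑ i, ∑ j, ∑ k, A i j k * s j = ∑ i, s i * ∑ j, ∑ k, A i j k := by
    rw [Finset.sum_comm, ← e1]
    refine Finset.sum_congr rfl fun i _ => Finset.sum_congr rfl fun j _ =>
      Finset.sum_congr rfl fun k _ => ?_
    rw [h1]
  have e3 : ∑ i, ∑ j, ∑ k, A i j k * s k = ∑ i, s i * ∑ j, ∑ k, A i j k := by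
    rw [← e2]
    refine Finset.sum_congr rfl fun i _ => ?_
    rw [Finset.sum_comm]
    refine Finset.sum_congr rfl fun j _ => Finset.sum_congr rfl fun k _ => ?_
    rw [h2]
  have e4 : ∑ i, ∑ j, ∑ k, A i j k * (s i + s j + s k) =
      (∑ i, ∑ j, ∑ k, A i j k * s i) + (∑ i, ∑ j, ∑ k, A i j k * s j) +
        ∑ i, ∑ j, ∑ k, A i j k * s k := by
    simp only [mul_add, Finset.sum_add_distrib]
  rw [e4, e1, e2, e3]
  ring

theorem ph_comm (x y z : ℝ) : ph x y z = ph y x z := by
  unfold ph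
  rw [show z ^ 2 - x ^ 2 - y ^ 2 = z ^ 2 - y ^ 2 - x ^ 2 by ring, mul_comm]

theorem q_low (hphi : Q_PHI) (hidn : Q_IDN) : Q_LOW := by
  intro n d A κ C hA hd hκ hC hrow
  have hA0 := hA.1
  have hA1 := hA.2.1
  have hA2 := hA.2.2
  set T : ℝ := ∑ i, ∑ j, ∑ k, A i j k with hT
  have hR0 : ∀ i, 0 ≤ ∑ j, ∑ k, A i j k := fun i =>
    Finset.sum_nonneg fun j _ => Finset.sum_nonneg fun k _ => hA0 i j k
  have hT0 : 0 ≤ T := Finset.sum_nonneg fun i _ => hR0 i
  set L : ℝ := 1 + C + C ^ 2 * T / κ with hLdef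
  have hq0 : 0 ≤ C ^ 2 * T / κ := by positivity
  have hL1 : 1 + C ≤ L := by rw [hLdef]; linarith
  have hL : 1 ≤ L := by linarith
  have hL0 : 0 < L := by linarith
  have hLq : C ^ 2 * T / κ ≤ L := by rw [hLdef]; linarith
  have hCT : C ^ 2 * T ≤ κ * L ^ 2 := by
    have h1 : C ^ 2 * T ≤ L * κ := by
      rw [div_le_iff₀ hκ] at hLq
      exact hLq
    have h2 : L ≤ L ^ 2 := by nlinarith
    nlinarith
  have hD0 : 0 ≤ ∑ e, d e := Finset.sum_nonneg fun e _ => (hd e).le
  have hLn : 0 < L ^ n := pow_pos hL0 n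
  refine ⟨κ / (2 * ((∑ e, d e) + 1) * L ^ n), by positivity, ?_⟩
  intro β x hβ hsys hqt e₀
  have hx : ∀ e, 0 < x e := hsys.1
  haveI : Nonempty (Fin n) := ⟨e₀⟩
  obtain ⟨m, -, hm'⟩ := Finset.exists_min_image (Finset.univ : Finset (Fin n)) x
    Finset.univ_nonempty
  have hm : ∀ e, x m ≤ x e := fun e => hm' e (Finset.mem_univ e)
  refine le_trans ?_ (hm e₀)
  obtain ⟨l, hln, hgap⟩ := q_low_gap x m hm (hx m) L hL
  set τ : ℝ := L ^ l * x m with hτ
  have hLl : (1 : ℝ) ≤ L ^ l := one_le_pow₀ hL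
  have hτ0 : 0 < τ := by
    have := hx m
    positivity
  have hτ1 : L ^ (l + 1) * x m = L * τ := by rw [hτ]; ring
  set S : Finset (Fin n) := Finset.univ.filter fun e => x e ≤ τ with hS
  have memS : ∀ e, e ∈ S ↔ x e ≤ τ := fun e => by simp [hS]
  have hmS : m ∈ S := by
    rw [memS]
    have := hx m
    nlinarith
  have hout : ∀ e, e ∉ S → L * τ < x e := by
    intro e he
    rw [memS] at he
    rcases hgap e with h | h
    · exact absurd h he
    · rwa [hτ1] at h
  have hτL : τ ≤ L * τ := by nlinarith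
  -- no triple has exactly two indices in `S`
  have two : ∀ a b c, A a b c ≠ 0 → a ∈ S → b ∈ S → c ∈ S := by
    have key : ∀ a b c, A a b c ≠ 0 → x a ≤ x b → a ∈ S → b ∈ S → c ∈ S := by
      intro a b c habc hab ha hb
      by_contra hc
      have h1 := hout c hc
      have h2 := (memS a).1 ha
      have h3 := (memS b).1 hb
      have h4 := hqt a b c habc hab (by linarith)
      have h5 : C * x a ≤ C * τ := mul_le_mul_of_nonneg_left h2 (by linarith)
      have h6 : (1 + C) * τ ≤ L * τ := mul_le_mul_of_nonneg_right hL1 hτ0.le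
      linarith
    intro a b c habc ha hb
    rcases le_total (x a) (x b) with h | h
    · exact key a b c habc h ha hb
    · exact key b a c (by rwa [hA1 b a c]) h hb ha
  set K : ℝ := 2 + C ^ 2 / L ^ 2 with hK
  have hK0 : 0 ≤ C ^ 2 / L ^ 2 := by positivity
  -- one index in `S`
  have one : ∀ a b c, A a b c ≠ 0 → a ∈ S → b ∉ S → c ∉ S → -K ≤ ph (x b) (x c) (x a) := by
    have key : ∀ a b c, A a b c ≠ 0 → x b ≤ x c → a ∈ S → b ∉ S → c ∉ S →
        -K ≤ ph (x b) (x c) (x a) := by
      intro a b c habc hbc ha hb hc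
      have h1 := (memS a).1 ha
      have h2 := hout b hb
      have h3 : x a ≤ x b := by linarith
      have h4 := hqt a b c habc h3 hbc
      have h5 : L * x a ≤ L * τ := mul_le_mul_of_nonneg_left h1 hL0.le
      have h6 := hphi.2.2.2.2 (x a) (x b) (x c) C L (hx a) hbc hC h4 hL (by linarith)
      rw [hK]
      linarith
    intro a b c habc ha hb hc
    rcases le_total (x b) (x c) with h | h
    · exact key a b c habc h ha hb hc
    · rw [ph_comm]
      exact key a c b (by rwa [hA2 a c b]) h ha hc hb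
  -- the bound for every triple
  let s : Fin n → ℝ := fun i => if i ∈ S then 1 else 0
  have triple : ∀ i j k, -K * (A i j k * (s i + s j + s k)) ≤ A i j k * PH x S i j k := by
    intro i j k
    by_cases h0 : A i j k = 0
    · rw [h0]; simp
    have hpos : 0 < A i j k := lt_of_le_of_ne (hA0 i j k) (Ne.symm h0)
    have hA' : ∀ {a b c : Fin n}, A a b c = A i j k → A a b c ≠ 0 := by
      intro a b c h
      rw [h]; exact h0
    have e12 : A j i k = A i j k := hA1 j i k
    have e13 : A k j i = A i j k := by rw [hA2 k j i, hA1 k i j, hA2 i k j]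
    have e23 : A i k j = A i j k := hA2 i k j
    have e312 : A k i j = A i j k := by rw [hA1 k i j, hA2 i k j]
    have e231 : A j k i = A i j k := by rw [hA2 j k i, hA1 j i k]
    suffices h : -K * (s i + s j + s k) ≤ PH x S i j k by
      have := mul_le_mul_of_nonneg_left h hpos.le
      linarith
    by_cases hi : i ∈ S <;> by_cases hj : j ∈ S <;> by_cases hk : k ∈ S
    · have h3 := hphi.2.2.2.1 (x i) (x j) (x k) (hx i) (hx j) (hx k)
      simp only [PH, s, hi, hj, hk, if_true]
      linarith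
    · exact absurd (two i j k h0 hi hj) hk
    · exact absurd (two i k j (hA' e23) hi hk) hj
    · have h1 := one i j k h0 hi hj hk
      simp only [PH, s, hi, hj, hk, if_true, if_false]
      linarith
    · exact absurd (two j k i (hA' e231) hj hk) hi
    · have h1 := one j i k (hA' e12) hj hi hk
      simp only [PH, s, hi, hj, hk, if_true, if_false]
      linarith
    · have h1 := one k i j (hA' e312) hk hi hj
      simp only [PH, s, hi, hj, hk, if_true, if_false]
      linarith
    · simp only [PH, s, hi, hj, hk, if_false]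
      linarith
  have hsum : -K * (3 * ∑ i, s i * ∑ j, ∑ k, A i j k) ≤
      ∑ i, ∑ j, ∑ k, A i j k * PH x S i j k := by
    rw [← q_low_sum A hA s, Finset.mul_sum]
    refine Finset.sum_le_sum fun i _ => ?_
    rw [Finset.mul_sum]
    refine Finset.sum_le_sum fun j _ => ?_
    rw [Finset.mul_sum]
    exact Finset.sum_le_sum fun k _ => triple i j k
  have hsS : ∑ i, s i * ∑ j, ∑ k, A i j k = ∑ i ∈ S, ∑ j, ∑ k, A i j k := by
    rw [← Finset.sum_filter_add_sum_filter_not Finset.univ (fun e => x e ≤ τ)]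
    have h2 : ∑ i ∈ Finset.univ.filter (fun e => ¬ x e ≤ τ), s i * ∑ j, ∑ k, A i j k = 0 := by
      refine Finset.sum_eq_zero fun i hi => ?_
      have : i ∉ S := by
        rw [memS]
        exact (Finset.mem_filter.1 hi).2
      simp [s, this]
    rw [h2, add_zero]
    refine Finset.sum_congr rfl fun i hi => ?_
    have : i ∈ S := hi
    simp [s, this]
  have hid := hidn n d β A x hA hsys S
  have hRT : ∀ i, ∑ j, ∑ k, A i j k ≤ T := fun i =>
    Finset.single_le_sum (f := fun i => ∑ j, ∑ k, A i j k) (fun i _ => hR0 i) (Finset.mem_univ i)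
  have hL2 : 0 < L ^ 2 := by positivity
  have hcl : C ^ 2 / L ^ 2 * T ≤ κ := by
    rw [div_mul_eq_mul_div, div_le_iff₀ hL2]
    exact hCT
  have hlow : ∑ _e ∈ S, κ / 2 ≤ ∑ e ∈ S, d e * x e := by
    have h1 : ∑ e ∈ S, d e * β e - K / 2 * ∑ i ∈ S, ∑ j, ∑ k, A i j k ≤ ∑ e ∈ S, d e * x e := by
      rw [hid]
      rw [hsS] at hsum
      linarith
    refine le_trans ?_ h1
    rw [Finset.mul_sum, ← Finset.sum_sub_distrib]
    refine Finset.sum_le_sum fun e _ => ?_
    have h2 := hrow e
    have h3 : d e ≤ d e * β e := by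
      have := hβ e
      have := hd e
      nlinarith
    have h4 : C ^ 2 / L ^ 2 * ∑ j, ∑ k, A e j k ≤ κ :=
      le_trans (mul_le_mul_of_nonneg_left (hRT e) hK0) hcl
    rw [hK]
    nlinarith
  have hcard : κ / 2 ≤ ∑ _e ∈ S, κ / 2 := by
    rw [Finset.sum_const, nsmul_eq_mul]
    have h1 : (1 : ℝ) ≤ (S.card : ℝ) := by
      have : 1 ≤ S.card := Finset.card_pos.2 ⟨m, hmS⟩
      exact_mod_cast this
    nlinarith
  have hup : ∑ e ∈ S, d e * x e ≤ ((∑ e, d e) + 1) * L ^ n * x m := by
    have h1 : ∑ e ∈ S, d e * x e ≤ ∑ e ∈ S, d e * τ :=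
      Finset.sum_le_sum fun e he => mul_le_mul_of_nonneg_left ((memS e).1 he) (hd e).le
    have h2 : ∑ e ∈ S, d e * τ ≤ ∑ e, d e * τ :=
      Finset.sum_le_sum_of_subset_of_nonneg (Finset.subset_univ S)
        fun e _ _ => mul_nonneg (hd e).le hτ0.le
    have h3 : ∑ e, d e * τ = (∑ e, d e) * τ := by rw [Finset.sum_mul]
    have h4 : τ ≤ L ^ n * x m := by
      rw [hτ]
      exact mul_le_mul_of_nonneg_right (pow_le_pow_right₀ hL hln.le) (hx m).le
    have h5 : (∑ e, d e) * τ ≤ (∑ e, d e) * (L ^ n * x m) := mul_le_mul_of_nonneg_left h4 hD0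
    have h6 : 0 < L ^ n * x m := mul_pos hLn (hx m)
    nlinarith
  rw [div_le_iff₀ (by positivity)]
  nlinarith

end Pool.Agent.Helper64.DH
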